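import Pool.Agent.Lib.MP_c8748f_nt.TreeF
import Pool.Agent.Lib.MP_c8748f_nt.TreeS

/-! Exponents of a friend of 10. -/

namespace Pool.Agent.Results.MP_c8748f_nt.FriendExponents

open Pool.Agent.Lib.MP_c8748f_nt

theorem even_exponent {m p : ℕ} (hf : Fr m) (hp : p ∈ m.primeFactors) :
    Even (m.factorization p) := by
  have hpp := Nat.prime_of_mem_primeFactors hp
  have h3 : p ≠ 2 := by
    rintro rfl
    exact hf.odd (Nat.dvd_of_mem_primeFactors hp)
  have h4 : p % 2 = 1 := hpp.eq_two_or_odd.resolve_left h3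
  have h2 := sg_dvd_of_mem hf.pos hp
  rw [pp, sg_pow hpp] at h2
  have key : ∀ n : ℕ, (∑ j ∈ Finset.range n, p ^ j) % 2 = n % 2 := by
    intro n
    induction n with
    | zero => simp
    | succ n ih =>
      rw [Finset.sum_range_succ, Nat.add_mod, ih, Nat.pow_mod, h4]
      simp only [one_pow]
      omega
  by_contra he
  rw [Nat.not_even_iff_odd] at he
  obtain ⟨k, hk⟩ := he
  have h5 := key (m.factorization p + 1)
  rw [hk] at h5 h2
  exact hf.sg_odd ((Nat.dvd_of_mod_eq_zero (by rw [h5]; omega)).trans h2)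

/-- Let `m ≠ 10` be a positive integer with `σ(m)/m = 9/5 = σ(10)/10`, and let `k` be `4` or `6`.
Then `m` has a prime factor whose (even) exponent in `m` is neither `k` nor congruent to
`2` modulo `3`. -/
theorem result (m : ℕ) (hpos : 0 < m) (hne : m ≠ 10) (h : 5 * ∑ d ∈ m.divisors, d = 9 * m)
    (k : ℕ) (hk : k = 4 ∨ k = 6) :
    ∃ p ∈ m.primeFactors, Even (m.factorization p) ∧ m.factorization p % 3 ≠ 2 ∧
      m.factorization p ≠ k := by
  have hf : Fr m := ⟨hpos.ne', hne, by rw [sg_eq]; exact h⟩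
  by_contra hcon
  have hE : ∀ p ∈ m.primeFactors, m.factorization p % 3 = 2 ∨ m.factorization p = k := by
    intro p hp
    by_contra hc
    rw [not_or] at hc
    exact hcon ⟨p, hp, even_exponent hf hp, hc.1, hc.2⟩
  rcases hk with rfl | rfl
  · exact ckRoot_sound (R := 5) hf (by norm_num) TF tableF hE tLF tRF okLF okRF
  · exact ckRoot_sound (R := 7) hf (by norm_num) TS tableS hE tLS tRS okLS okRS

end Pool.Agent.Results.MP_c8748f_nt.FriendExponents
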