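import Pool.Agent.Lib.MP_c8748f_nt.LP.Tree2

/-! The largest prime factor of a friend of 10. -/

namespace Pool.Agent.Results.MP_c8748f_nt.LargestPrime

open Pool.Agent.Lib.MP_c8748f_nt

/-- Every positive integer `m ≠ 10` with `σ(m)/m = 9/5 = σ(10)/10` has a prime factor larger than
`10^6`. -/
theorem result (m : ℕ) (hpos : 0 < m) (hne : m ≠ 10) (h : 5 * ∑ d ∈ m.divisors, d = 9 * m) :
    ∃ p, p.Prime ∧ p ∣ m ∧ 10 ^ 6 < p := by
  have hf : Fr m := ⟨hpos.ne', hne, by rw [sg_eq]; exact h⟩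
  by_contra hcon
  refine LP.main hf fun r hr hrm => ?_
  by_contra hr2
  refine hcon ⟨r, hr, hrm, ?_⟩
  have hBB : LP.BB = 1000000 := rfl
  rw [hBB] at hr2
  norm_num
  omega

end Pool.Agent.Results.MP_c8748f_nt.LargestPrime
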